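import Mathlib

/-!
Proper ideals and proper filters of a bounded lattice, maximal ones, and lower bounds for the number
of the maximal ones by independent families.
-/

namespace Pool.Agent.X222.SL

open Cardinal Finset

universe u

/-- `I` is an ideal (not containing `⊤`) of the bounded lattice `L`. -/
def IsIdl {L : Type u} [Lattice L] [BoundedOrder L] (I : Set L) : Prop :=
  ⊥ ∈ I ∧ ⊤ ∉ I ∧ (∀ U ∈ I, ∀ W, W ≤ U → W ∈ I) ∧ (∀ U ∈ I, ∀ W ∈ I, U ⊔ W ∈ I)

/-- `J` is a filter (not containing `⊥`) of the bounded lattice `L`. -/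
def IsFil {L : Type u} [Lattice L] [BoundedOrder L] (J : Set L) : Prop :=
  ⊤ ∈ J ∧ ⊥ ∉ J ∧ (∀ U ∈ J, ∀ W, U ≤ W → W ∈ J) ∧ (∀ U ∈ J, ∀ W ∈ J, U ⊓ W ∈ J)

theorem isFil_iff {L : Type u} [Lattice L] [BoundedOrder L] (J : Set L) :
    IsFil J ↔ IsIdl (L := Lᵒᵈ) J := Iff.rfl

/-- every ideal is contained in a maximal one -/
theorem exists_max {L : Type u} [Lattice L] [BoundedOrder L] (I : Set L) (hI : IsIdl I) :
    ∃ M : Set L, I ⊆ M ∧ Maximal IsIdl M := by
  refine zorn_subset_nonempty {I : Set L | IsIdl I} ?_ I hI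
  intro c hc hch hne
  obtain ⟨I0, hI0⟩ := hne
  refine ⟨⋃₀ c, ⟨⟨I0, hI0, (hc hI0).1⟩, ?_, ?_, ?_⟩, fun s hs => Set.subset_sUnion_of_mem hs⟩
  · rintro ⟨s, hs, h⟩
    exact (hc hs).2.1 h
  · rintro U ⟨s, hs, hU⟩ W hW
    exact ⟨s, hs, (hc hs).2.2.1 U hU W hW⟩
  · rintro U ⟨s, hs, hU⟩ W ⟨t, ht, hW⟩
    rcases hch.total hs ht with h | h
    · exact ⟨t, ht, (hc ht).2.2.2 U (h hU) W hW⟩
    · exact ⟨s, hs, (hc hs).2.2.2 U hU W (h hW)⟩

/-- an independent family of alternatives gives many maximal ideals -/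
theorem idl_lower {L : Type u} [Lattice L] [BoundedOrder L] {ι C : Type u} (W : ι → C → L)
    (h1 : ∀ i c d, c ≠ d → W i c ⊔ W i d = ⊤)
    (h2 : ∀ (c : ι → C) (s : Finset ι), s.sup (fun i => W i (c i)) ≠ ⊤) :
    #(ι → C) ≤ #{I : Set L // Maximal IsIdl I} := by
  classical
  have key : ∀ c : ι → C, ∃ M : Set L, (∀ i, W i (c i) ∈ M) ∧ Maximal IsIdl M := by
    intro c
    have hI : IsIdl {x : L | ∃ s : Finset ι, x ≤ s.sup (fun i => W i (c i))} := by
      refine ⟨⟨∅, bot_le⟩, ?_, ?_, ?_⟩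
      · rintro ⟨s, hs⟩
        exact h2 c s (top_le_iff.1 hs)
      · rintro U ⟨s, hs⟩ V hV
        exact ⟨s, hV.trans hs⟩
      · rintro U ⟨s, hs⟩ V ⟨t, ht⟩
        refine ⟨s ∪ t, ?_⟩
        rw [Finset.sup_union]
        exact sup_le_sup hs ht
    obtain ⟨M, hM, hmax⟩ := exists_max _ hI
    exact ⟨M, fun i => hM ⟨{i}, by simp⟩, hmax⟩
  choose M hM hmax using key
  refine mk_le_of_injective (f := fun c => (⟨M c, hmax c⟩ : {I : Set L // Maximal IsIdl I})) ?_
  intro c d hcd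
  have hcd' : M c = M d := congrArg Subtype.val hcd
  by_contra hne
  obtain ⟨i, hi⟩ := Function.ne_iff.1 hne
  have e1 := hM c i
  have e2 := hM d i
  rw [hcd'] at e1
  have := (hmax d).1.2.2.2 _ e1 _ e2
  rw [h1 i _ _ hi] at this
  exact (hmax d).1.2.1 this

/-- the same for filters -/
theorem fil_lower {L : Type u} [Lattice L] [BoundedOrder L] {ι C : Type u} (W : ι → C → L)
    (h1 : ∀ i c d, c ≠ d → W i c ⊓ W i d = ⊥)
    (h2 : ∀ (c : ι → C) (s : Finset ι), s.inf (fun i => W i (c i)) ≠ ⊥) :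
    #(ι → C) ≤ #{I : Set L // Maximal IsFil I} :=
  idl_lower (L := Lᵒᵈ) W h1 h2

theorem isIdl_image {L L' : Type u} [Lattice L] [BoundedOrder L] [Lattice L'] [BoundedOrder L']
    (e : L ≃o L') (I : Set L') : IsIdl (e ⁻¹' I) ↔ IsIdl I := by
  unfold IsIdl
  simp only [Set.mem_preimage, map_bot, map_top, map_sup]
  refine and_congr Iff.rfl (and_congr Iff.rfl (and_congr ?_ ?_))
  · constructor
    · intro h U hU W hW
      have := h (e.symm U) (by simpa using hU) (e.symm W) (by simpa using hW)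
      simpa using this
    · intro h U hU W hW
      exact h _ hU _ (e.monotone hW)
  · constructor
    · intro h U hU W hW
      have := h (e.symm U) (by simpa using hU) (e.symm W) (by simpa using hW)
      simpa using this
    · intro h U hU W hW
      exact h _ hU _ hW

/-- the number of maximal ideals is invariant under isomorphisms -/
theorem mk_idl_congr {L L' : Type u} [Lattice L] [BoundedOrder L] [Lattice L'] [BoundedOrder L']
    (e : L ≃o L') : #{I : Set L // Maximal IsIdl I} = #{I : Set L' // Maximal IsIdl I} := by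
  have hsub : ∀ I J : Set L', e ⁻¹' I ⊆ e ⁻¹' J ↔ I ⊆ J := fun I J =>
    Set.preimage_subset_preimage_iff (by rw [e.surjective.range_eq]; exact Set.subset_univ _)
  have h : ∀ I : Set L', Maximal IsIdl (e ⁻¹' I) ↔ Maximal IsIdl I := by
    intro I
    unfold Maximal
    rw [isIdl_image]
    refine and_congr Iff.rfl ?_
    constructor
    · intro h J hJ hIJ
      have := h (y := e ⁻¹' J) ((isIdl_image e J).2 hJ) ((hsub I J).2 hIJ)
      exact (hsub J I).1 this
    · intro h J hJ hIJ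
      have e1 : J = e ⁻¹' (e '' J) := (Set.preimage_image_eq J e.injective).symm
      rw [e1] at hJ hIJ ⊢
      exact (hsub _ _).2 (h ((isIdl_image e _).1 hJ) ((hsub _ _).1 hIJ))
  refine (mk_congr (Equiv.ofBijective
    (fun I : {I : Set L' // Maximal IsIdl I} =>
      (⟨e ⁻¹' I.1, (h I.1).2 I.2⟩ : {I : Set L // Maximal IsIdl I})) ⟨?_, ?_⟩)).symm
  · intro I J hIJ
    have := congrArg Subtype.val hIJ
    exact Subtype.ext (e.surjective.preimage_injective this)
  · rintro ⟨I, hI⟩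
    have e1 : e ⁻¹' (e '' I) = I := Set.preimage_image_eq I e.injective
    refine ⟨⟨e '' I, (h _).1 (by rw [e1]; exact hI)⟩, Subtype.ext e1⟩

theorem mk_fil_congr {L L' : Type u} [Lattice L] [BoundedOrder L] [Lattice L'] [BoundedOrder L']
    (e : L ≃o L') : #{I : Set L // Maximal IsFil I} = #{I : Set L' // Maximal IsFil I} :=
  mk_idl_congr (L := Lᵒᵈ) (L' := L'ᵒᵈ) e.dual

end Pool.Agent.X222.SL
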