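import Mathlib

/-!
A family of subspaces of a finite-dimensional space has a finite subfamily such that a subspace which
meets all members of the subfamily nontrivially meets all members of the family nontrivially.
-/

namespace Pool.Agent.X222.SL

open Finset Module

universe u

variable {F E : Type u} [Field F] [AddCommGroup E] [Module F E]

/-- the `a`-form `det ∘ π` -/
noncomputable def form (a : ℕ) (π : E →ₗ[F] (Fin a → F)) :
    MultilinearMap F (fun _ : Fin a => E) F :=
  ((Matrix.detRowAlternating (n := Fin a) (R := F)).compLinearMap π).toMultilinearMap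

theorem form_apply (a : ℕ) (π : E →ₗ[F] (Fin a → F)) (u : Fin a → E) :
    form a π u = (Matrix.of (fun i => π (u i))).det := rfl

/-- `⟨u⟩` meets `T` nontrivially iff all forms `det ∘ π` with `π|_T = 0` vanish at `u` -/
theorem meets_iff (a : ℕ) (u : Fin a → E) (hu : LinearIndependent F u) (T : Submodule F E) :
    Submodule.span F (Set.range u) ⊓ T ≠ ⊥ ↔
      ∀ π : E →ₗ[F] (Fin a → F), T ≤ LinearMap.ker π → form a π u = 0 := by
  constructor
  · intro h π hπ
    obtain ⟨x, hx, hx0⟩ := (Submodule.ne_bot_iff _).1 h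
    obtain ⟨c, hc⟩ := (Submodule.mem_span_range_iff_exists_fun F).1 hx.1
    rw [form_apply]
    rw [← Matrix.exists_vecMul_eq_zero_iff]
    refine ⟨c, ?_, ?_⟩
    · rintro rfl
      apply hx0
      rw [← hc]
      simp
    · have e1 : π x = 0 := hπ hx.2
      rw [← hc, map_sum] at e1
      ext j
      have := congrFun e1 j
      simp only [Matrix.vecMul, dotProduct, Matrix.of_apply, Pi.zero_apply]
      simpa [Finset.sum_apply] using this
  · intro h hbot
    have hli : LinearIndependent F (fun i => T.mkQ (u i)) := by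
      have h1 := LinearIndependent.map (f := T.mkQ) hu (by
        rw [Submodule.ker_mkQ, disjoint_iff]
        exact hbot)
      exact h1
    obtain ⟨g, hg⟩ := LinearMap.exists_extend
      ((Finsupp.lcoeFun (R := F) (α := Fin a) (M := F)).comp hli.repr)
    have hgi : ∀ i, g (T.mkQ (u i)) = Pi.single i 1 := by
      intro i
      have hm : T.mkQ (u i) ∈ Submodule.span F (Set.range fun i => T.mkQ (u i)) :=
        Submodule.subset_span ⟨i, rfl⟩
      have e1 := LinearMap.congr_fun hg ⟨T.mkQ (u i), hm⟩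
      simp only [LinearMap.comp_apply, Submodule.subtype_apply] at e1
      rw [e1, hli.repr_eq_single i _ rfl]
      ext j
      simp [Finsupp.single_apply, Pi.single_apply, eq_comm]
    have h2 := h (g.comp T.mkQ) (by
      intro x hx
      have : T.mkQ x = 0 := by simpa using hx
      simp only [LinearMap.mem_ker, LinearMap.comp_apply, this, map_zero])
    rw [form_apply] at h2
    have e3 : (Matrix.of fun i => (g.comp T.mkQ) (u i)) = (1 : Matrix (Fin a) (Fin a) F) := by
      ext i j
      simp only [Matrix.of_apply, LinearMap.comp_apply]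
      rw [hgi, Matrix.one_apply, Pi.single_apply]
      simp [eq_comm]
    rw [e3, Matrix.det_one] at h2
    exact one_ne_zero h2

/-- finite kernels, for families of subspaces of dimension `a` -/
theorem kernel_dim [FiniteDimensional F E] (a : ℕ) (G : Set (Submodule F E))
    (hG : ∀ U ∈ G, finrank F U = a) :
    ∃ s : Finset (Submodule F E), ↑s ⊆ G ∧
      ∀ T : Submodule F E, (∀ U ∈ s, U ⊓ T ≠ ⊥) → ∀ U ∈ G, U ⊓ T ≠ ⊥ := by
  classical
  have hb : ∀ U : Submodule F E, ∃ u : Fin a → E, finrank F U = a →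
      LinearIndependent F u ∧ Submodule.span F (Set.range u) = U := by
    intro U
    by_cases h : finrank F U = a
    · let b := finBasisOfFinrankEq F U h
      refine ⟨fun i => (b i : E), fun _ => ⟨?_, ?_⟩⟩
      · exact b.linearIndependent.map' U.subtype U.ker_subtype
      · have h1 := b.span_eq
        have h2 := congrArg (Submodule.map U.subtype) h1
        rw [Submodule.map_span, Submodule.map_subtype_top, ← Set.range_comp] at h2
        exact h2
    · exact ⟨0, fun h' => absurd h' h⟩
  choose u hu using hb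
  -- the space of forms
  let K : Finset (Submodule F E) → Submodule F (MultilinearMap F (fun _ : Fin a => E) F) := fun s =>
    { carrier := {ω | ∀ U ∈ s, ω (u U) = 0}
      add_mem' := by
        intro x y hx hy U hU
        simp [hx U hU, hy U hU]
      zero_mem' := by
        intro U hU
        simp
      smul_mem' := by
        intro c x hx U hU
        simp [hx U hU] }
  have hK : ∀ s ω, ω ∈ K s ↔ ∀ U ∈ s, ω (u U) = 0 := fun s ω => Iff.rfl
  -- a finite subset with minimal dimension
  obtain ⟨s, hs, hmin⟩ : ∃ s : Finset (Submodule F E), ↑s ⊆ G ∧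
      ∀ t : Finset (Submodule F E), ↑t ⊆ G → finrank F (K s) ≤ finrank F (K t) := by
    have hne : {n : ℕ | ∃ s : Finset (Submodule F E), ↑s ⊆ G ∧ finrank F (K s) = n}.Nonempty :=
      ⟨_, ∅, by simp, rfl⟩
    obtain ⟨s, hs, hn⟩ := Nat.sInf_mem hne
    refine ⟨s, hs, fun t ht => ?_⟩
    rw [hn]
    exact Nat.sInf_le ⟨t, ht, rfl⟩
  refine ⟨s, hs, ?_⟩
  intro T hT U hU
  have hle : K (insert U s) ≤ K s := fun ω hω U' hU' => hω U' (mem_insert_of_mem hU')
  have heq : K (insert U s) = K s := by
    apply Submodule.eq_of_le_of_finrank_le hle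
    apply hmin
    intro x hx
    rw [coe_insert] at hx
    rcases hx with rfl | hx
    · exact hU
    · exact hs hx
  obtain ⟨h1, h2⟩ := hu U (hG U hU)
  rw [← h2, meets_iff a (u U) h1 T]
  intro π hπ
  have hmem : form a π ∈ K s := by
    intro U' hU'
    obtain ⟨h3, h4⟩ := hu U' (hG U' (hs hU'))
    have h5 := hT U' hU'
    rw [← h4, meets_iff a (u U') h3 T] at h5
    exact h5 π hπ
  rw [← heq] at hmem
  exact hmem U (mem_insert_self _ _)

/-- finite kernels -/
theorem kernel_fd [FiniteDimensional F E] (G : Set (Submodule F E)) :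
    ∃ s : Finset (Submodule F E), ↑s ⊆ G ∧
      ∀ T : Submodule F E, (∀ U ∈ s, U ⊓ T ≠ ⊥) → ∀ U ∈ G, U ⊓ T ≠ ⊥ := by
  classical
  have h : ∀ a : ℕ, ∃ s : Finset (Submodule F E), ↑s ⊆ {U ∈ G | finrank F U = a} ∧
      ∀ T : Submodule F E, (∀ U ∈ s, U ⊓ T ≠ ⊥) →
        ∀ U ∈ {U ∈ G | finrank F U = a}, U ⊓ T ≠ ⊥ :=
    fun a => kernel_dim a _ fun U hU => hU.2
  choose s hs hs' using h
  refine ⟨(range (finrank F E + 1)).biUnion s, ?_, ?_⟩
  · intro U hU
    rw [mem_coe, mem_biUnion] at hU
    obtain ⟨a, -, ha⟩ := hU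
    exact (hs a ha).1
  · intro T hT U hU
    refine hs' (finrank F U) T (fun U' hU' => hT U' ?_) U ⟨hU, rfl⟩
    rw [mem_biUnion]
    exact ⟨_, mem_range.2 (Nat.lt_succ_of_le (Submodule.finrank_le U)), hU'⟩

/-- finite kernels for the traces on a finite-dimensional subspace -/
theorem kernel_trace {V : Type u} [AddCommGroup V] [Module F V] (E : Submodule F V)
    [FiniteDimensional F E] (G : Set (Submodule F V)) :
    ∃ s : Finset (Submodule F V), ↑s ⊆ G ∧
      ∀ T : Submodule F V, (∀ U ∈ s, U ⊓ T ⊓ E ≠ ⊥) → ∀ U ∈ G, U ⊓ T ⊓ E ≠ ⊥ := by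
  classical
  have hmeet : ∀ U T : Submodule F V,
      U ⊓ T ⊓ E ≠ ⊥ ↔ U.comap E.subtype ⊓ T.comap E.subtype ≠ ⊥ := by
    intro U T
    rw [Submodule.ne_bot_iff, Submodule.ne_bot_iff]
    constructor
    · rintro ⟨x, ⟨⟨hU, hT⟩, hE⟩, h0⟩
      exact ⟨⟨x, hE⟩, ⟨hU, hT⟩, fun h => h0 (congrArg Subtype.val h)⟩
    · rintro ⟨x, ⟨hU, hT⟩, h0⟩
      exact ⟨x.1, ⟨⟨hU, hT⟩, x.2⟩, fun h => h0 (Subtype.ext h)⟩
  obtain ⟨s, hs, hs'⟩ := kernel_fd ((fun U : Submodule F V => U.comap E.subtype) '' G)
  obtain ⟨t, ht, hts⟩ := Finset.subset_set_image_iff.1 hs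
  refine ⟨t, ht, ?_⟩
  intro T hT U hU
  rw [hmeet]
  refine hs' _ ?_ _ ⟨U, hU, rfl⟩
  intro U' hU'
  rw [← hts, mem_image] at hU'
  obtain ⟨U'', h1, rfl⟩ := hU'
  exact (hmeet _ _).1 (hT U'' h1)

end Pool.Agent.X222.SL
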