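import Pool.Agent.X222.SL.Basic

/-!
Many maximal filters: the model `V = (Finset B × Finset (Finset B)) →₀ F`.
-/

namespace Pool.Agent.X222.SL

open Cardinal Finset

universe u

/-- the trace of the set `X` on the finite set `A` -/
noncomputable def tr {B : Type u} (X : Set B) (A : Finset B) : Finset B := by
  classical exact A.filter (· ∈ X)

theorem mem_tr {B : Type u} (X : Set B) (A : Finset B) (x : B) : x ∈ tr X A ↔ x ∈ A ∧ x ∈ X := by
  classical
  unfold tr
  exact mem_filter

/-- the model -/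
abbrev MF (F B : Type u) [Field F] : Type u := (Finset B × Finset (Finset B)) →₀ F

/-- `v (A, σ ∪ {X ∩ A}) = c v(A, σ)` -/
noncomputable def WFil {F B : Type u} [Field F] (X : Set B) (c : F) : Submodule F (MF F B) where
  carrier := {v | ∀ A σ τ, tr X A ∉ σ → (∀ T, T ∈ τ ↔ T = tr X A ∨ T ∈ σ) →
    v (A, τ) = c * v (A, σ)}
  add_mem' := by
    intro v w hv hw A σ τ h h'
    rw [Finsupp.add_apply, Finsupp.add_apply, hv A σ τ h h', hw A σ τ h h']
    ring
  zero_mem' := by
    intro A σ τ h h'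
    rw [Finsupp.zero_apply, Finsupp.zero_apply, mul_zero]
  smul_mem' := by
    intro a v hv A σ τ h h'
    rw [Finsupp.smul_apply, Finsupp.smul_apply, hv A σ τ h h', smul_eq_mul, smul_eq_mul]
    ring

theorem mem_WFil {F B : Type u} [Field F] (X : Set B) (c : F) (v : MF F B) :
    v ∈ WFil X c ↔ ∀ A σ τ, tr X A ∉ σ → (∀ T, T ∈ τ ↔ T = tr X A ∨ T ∈ σ) →
      v (A, τ) = c * v (A, σ) := Iff.rfl

theorem WFil_disj {F B : Type u} [Field F] (X : Set B) (c d : F) (hcd : c ≠ d) :
    WFil X c ⊓ WFil X d = ⊥ := by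
  classical
  rw [eq_bot_iff]
  rintro v ⟨hc, hd⟩
  rw [SetLike.mem_coe, mem_WFil] at hc hd
  rw [Submodule.mem_bot]
  have h0 : ∀ A σ, tr X A ∉ σ → v (A, σ) = 0 := by
    intro A σ h
    have h1 := hc A σ (insert (tr X A) σ) h (fun T => mem_insert)
    rw [hd A σ (insert (tr X A) σ) h (fun T => mem_insert)] at h1
    have h2 : (d - c) * v (A, σ) = 0 := by linear_combination h1
    rcases mul_eq_zero.1 h2 with h3 | h3
    · exact absurd (sub_eq_zero.1 h3).symm hcd
    · exact h3
  ext ⟨A, σ⟩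
  rw [Finsupp.zero_apply]
  by_cases h : tr X A ∈ σ
  · have h1 := hc A (σ.erase (tr X A)) (insert (tr X A) (σ.erase (tr X A))) (notMem_erase _ _)
      (fun T => mem_insert)
    rw [insert_erase h, h0 A _ (notMem_erase _ _), mul_zero] at h1
    exact h1
  · exact h0 A σ h

theorem exists_sep {B : Type u} (s : Finset (Set B)) :
    ∃ A : Finset B, ∀ X ∈ s, ∀ Y ∈ s, tr X A = tr Y A → X = Y := by
  classical
  by_cases hB : Nonempty B
  · obtain ⟨b0⟩ := hB
    have h : ∀ p : Set B × Set B, ∃ b : B, p.1 ≠ p.2 → ¬ (b ∈ p.1 ↔ b ∈ p.2) := by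
      rintro ⟨X, Y⟩
      by_cases h : X = Y
      · exact ⟨b0, fun h' => absurd h h'⟩
      · by_contra hcon
        push Not at hcon
        exact h (Set.ext fun b => (hcon b).2)
    choose d hd using h
    refine ⟨(s ×ˢ s).image d, ?_⟩
    intro X hX Y hY hXY
    by_contra hne
    have h1 := hd (X, Y) hne
    apply h1
    have hA : d (X, Y) ∈ (s ×ˢ s).image d := mem_image_of_mem _ (mem_product.2 ⟨hX, hY⟩)
    have h2 := Finset.ext_iff.1 hXY (d (X, Y))
    rw [mem_tr, mem_tr] at h2
    simpa [hA] using h2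
  · refine ⟨∅, fun X _ Y _ _ => ?_⟩
    ext b
    exact absurd ⟨b⟩ hB

theorem WFil_indep {F B : Type u} [Field F] (c : Set B → F) (s : Finset (Set B)) :
    s.inf (fun X => WFil X (c X)) ≠ ⊥ := by
  classical
  obtain ⟨A, hA⟩ := exists_sep s
  let S : Finset (Finset B) := s.image (fun X => tr X A)
  let c' : Finset B → F := fun T => if h : ∃ X ∈ s, tr X A = T then c h.choose else 0
  have hc' : ∀ X ∈ s, c' (tr X A) = c X := by
    intro X hX
    have h : ∃ Y ∈ s, tr Y A = tr X A := ⟨X, hX, rfl⟩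
    have h1 : c' (tr X A) = c h.choose := dif_pos h
    rw [h1, hA _ h.choose_spec.1 X hX h.choose_spec.2]
  let v : MF F B := Finsupp.onFinset (({A} : Finset (Finset B)) ×ˢ S.powerset)
    (fun p => if p.1 = A ∧ p.2 ⊆ S then ∏ T ∈ p.2, c' T else 0) (by
      rintro ⟨A', σ⟩ h
      rw [mem_product, mem_singleton, mem_powerset]
      by_contra hcon
      exact h (if_neg hcon))
  have hv : ∀ A' σ, v (A', σ) = if A' = A ∧ σ ⊆ S then ∏ T ∈ σ, c' T else 0 := fun A' σ => rfl
  rw [Submodule.ne_bot_iff]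
  refine ⟨v, ?_, ?_⟩
  · rw [Submodule.mem_finsetInf]
    intro X hX
    rw [mem_WFil]
    intro A' σ τ hσ hτ
    have e : τ = insert (tr X A') σ := Finset.ext fun T => (hτ T).trans mem_insert.symm
    subst e
    rw [hv, hv]
    by_cases hA' : A' = A
    · subst hA'
      have hXS : tr X A' ∈ S := mem_image_of_mem _ hX
      by_cases hS : σ ⊆ S
      · rw [if_pos ⟨rfl, insert_subset hXS hS⟩, if_pos ⟨rfl, hS⟩, prod_insert hσ, hc' X hX]
      · rw [if_neg (fun h => hS ((subset_insert _ _).trans h.2)), if_neg (fun h => hS h.2), mul_zero]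
    · rw [if_neg (fun h => hA' h.1), if_neg (fun h => hA' h.1), mul_zero]
  · intro h0
    have h1 : v (A, ∅) = 1 := by
      rw [hv, if_pos ⟨rfl, empty_subset _⟩, prod_empty]
    rw [h0, Finsupp.zero_apply] at h1
    exact zero_ne_one h1

theorem fil_lower_MF (F B : Type u) [Field F] :
    #F ^ ((2 : Cardinal.{u}) ^ #B) ≤ #{J : Set (Submodule F (MF F B)) // Maximal IsFil J} := by
  have h := fil_lower (L := Submodule F (MF F B)) (ι := Set B) (C := F) WFil WFil_disj WFil_indep
  rwa [← power_def, mk_set] at h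

end Pool.Agent.X222.SL
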