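import Pool.Agent.X222.SL.Basic

/-!
Many maximal ideals: the model `V = Finset (B →₀ ℕ) →₀ F[X_e : e ∈ B →₀ ℕ]`.
-/

namespace Pool.Agent.X222.SL

open Cardinal Finset

universe u

/-- the model -/
abbrev MI (F B : Type u) [Field F] : Type u := Finset (B →₀ ℕ) →₀ MvPolynomial (B →₀ ℕ) F

/-- the value at `f` of the generic polynomial with monomials in `M` -/
noncomputable def gen {F B : Type u} [Field F] (f : B → F) (M : Finset (B →₀ ℕ)) :
    MvPolynomial (B →₀ ℕ) F :=
  ∑ e ∈ M, MvPolynomial.X e * MvPolynomial.C (e.prod fun b k => f b ^ k)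

/-- multiples of a family of elements -/
noncomputable def Mult {F B : Type u} [Field F] (t : Finset (B →₀ ℕ) → MvPolynomial (B →₀ ℕ) F) :
    Submodule F (MI F B) where
  carrier := {v | ∀ M, t M ∣ v M}
  add_mem' := by
    intro v w hv hw M
    rw [Finsupp.add_apply]
    exact dvd_add (hv M) (hw M)
  zero_mem' := by
    intro M
    rw [Finsupp.zero_apply]
    exact dvd_zero _
  smul_mem' := by
    intro a v hv M
    rw [Finsupp.smul_apply]
    exact dvd_smul_of_dvd a (hv M)

theorem mem_Mult {F B : Type u} [Field F] (t : Finset (B →₀ ℕ) → MvPolynomial (B →₀ ℕ) F)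
    (v : MI F B) : v ∈ Mult t ↔ ∀ M, t M ∣ v M := Iff.rfl

/-- the alternatives -/
noncomputable def WI {F B : Type u} [Field F] (f : B → F) (c : ULift.{u} Bool) :
    Submodule F (MI F B) :=
  if c.down then Mult (fun M => gen f M) else Mult (fun M => 1 - gen f M)

theorem sup_Mult {F B : Type u} [Field F] (t : Finset (B →₀ ℕ) → MvPolynomial (B →₀ ℕ) F) :
    Mult t ⊔ Mult (fun M => 1 - t M) = ⊤ := by
  classical
  rw [eq_top_iff]
  intro v _
  rw [Submodule.mem_sup]
  refine ⟨Finsupp.onFinset v.support (fun M => t M * v M) ?_, ?_,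
    Finsupp.onFinset v.support (fun M => (1 - t M) * v M) ?_, ?_, ?_⟩
  · intro M h
    rw [Finsupp.mem_support_iff]
    intro h0
    exact h (by rw [h0, mul_zero])
  · intro M
    exact dvd_mul_right _ _
  · intro M h
    rw [Finsupp.mem_support_iff]
    intro h0
    exact h (by rw [h0, mul_zero])
  · intro M
    exact dvd_mul_right _ _
  · ext1 M
    rw [Finsupp.add_apply, Finsupp.onFinset_apply, Finsupp.onFinset_apply]
    ring

theorem WI_sup {F B : Type u} [Field F] (f : B → F) (c d : ULift.{u} Bool) (hcd : c ≠ d) :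
    WI f c ⊔ WI f d = ⊤ := by
  obtain ⟨c⟩ := c
  obtain ⟨d⟩ := d
  unfold WI
  cases c <;> cases d
  · exact absurd rfl hcd
  · simp only [Bool.false_eq_true, if_false, if_true]
    rw [sup_comm]
    exact sup_Mult _
  · simp only [Bool.false_eq_true, if_false, if_true]
    exact sup_Mult _
  · exact absurd rfl hcd

/-- Lagrange interpolation in any number of variables -/
theorem exists_interp {F B : Type u} [Field F] (s : Finset (B → F)) (y : (B → F) → F) :
    ∃ P : MvPolynomial B F, ∀ f ∈ s, MvPolynomial.eval f P = y f := by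
  classical
  have h : ∀ f g : B → F, ∃ Q : MvPolynomial B F, f ≠ g →
      MvPolynomial.eval f Q = 1 ∧ MvPolynomial.eval g Q = 0 := by
    intro f g
    by_cases h : f = g
    · exact ⟨0, fun h' => absurd h h'⟩
    · obtain ⟨b, hb⟩ := Function.ne_iff.1 h
      refine ⟨(MvPolynomial.X b - MvPolynomial.C (g b)) * MvPolynomial.C (f b - g b)⁻¹, fun _ => ⟨?_, ?_⟩⟩
      · simp only [map_mul, map_sub, MvPolynomial.eval_X, MvPolynomial.eval_C]
        exact mul_inv_cancel₀ (sub_ne_zero.2 hb)
      · simp only [map_mul, map_sub, MvPolynomial.eval_X, MvPolynomial.eval_C]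
        rw [sub_self, zero_mul]
  choose Q hQ using h
  refine ⟨∑ f ∈ s, MvPolynomial.C (y f) * ∏ g ∈ s.erase f, Q f g, ?_⟩
  intro f hf
  rw [map_sum, Finset.sum_eq_single_of_mem f hf]
  · rw [map_mul, MvPolynomial.eval_C, map_prod, Finset.prod_eq_one, mul_one]
    intro g hg
    exact (hQ f g (ne_of_mem_erase hg).symm).1
  · intro f' hf' hne
    rw [map_mul, map_prod, Finset.prod_eq_zero (i := f), mul_zero]
    · exact mem_erase.2 ⟨hne.symm, hf⟩
    · exact (hQ f' f hne).2

theorem eval_gen {F B : Type u} [Field F] (f : B → F) (P : MvPolynomial B F) :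
    MvPolynomial.eval (fun e => MvPolynomial.coeff e P) (gen f P.support) = MvPolynomial.eval f P := by
  unfold gen
  rw [map_sum, MvPolynomial.eval_eq]
  apply Finset.sum_congr rfl
  intro e _
  rw [map_mul, MvPolynomial.eval_X, MvPolynomial.eval_C]
  rfl

theorem WI_indep {F B : Type u} [Field F] (c : (B → F) → ULift.{u} Bool) (s : Finset (B → F)) :
    s.sup (fun f => WI f (c f)) ≠ ⊤ := by
  classical
  obtain ⟨P, hP⟩ := exists_interp s (fun f => if (c f).down then 0 else 1)
  let θ : MvPolynomial (B →₀ ℕ) F →+* F := MvPolynomial.eval (fun e => MvPolynomial.coeff e P)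
  let K : Submodule F (MI F B) :=
    { carrier := {v | θ (v P.support) = 0}
      add_mem' := by
        intro v w hv hw
        change θ ((v + w) P.support) = 0
        rw [Finsupp.add_apply, map_add]
        rw [show θ (v P.support) = 0 from hv, show θ (w P.support) = 0 from hw, add_zero]
      zero_mem' := by
        change θ ((0 : MI F B) P.support) = 0
        rw [Finsupp.zero_apply, map_zero]
      smul_mem' := by
        intro a v hv
        change θ ((a • v) P.support) = 0
        rw [Finsupp.smul_apply, MvPolynomial.smul_eq_C_mul, map_mul,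
          show θ (v P.support) = 0 from hv, mul_zero] }
  have hK : s.sup (fun f => WI f (c f)) ≤ K := by
    refine Finset.sup_le fun f hf => ?_
    intro v hv
    change θ (v P.support) = 0
    have hf' := hP f hf
    unfold WI at hv
    by_cases h : (c f).down = true
    · rw [if_pos h] at hv hf'
      obtain ⟨q, hq⟩ := (mem_Mult _ _).1 hv P.support
      rw [hq, map_mul]
      have : θ (gen f P.support) = 0 := by rw [← hf']; exact eval_gen f P
      rw [this, zero_mul]
    · rw [if_neg h] at hv hf'
      obtain ⟨q, hq⟩ := (mem_Mult _ _).1 hv P.support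
      rw [hq, map_mul, map_sub, map_one]
      have : θ (gen f P.support) = 1 := by rw [← hf']; exact eval_gen f P
      rw [this, sub_self, zero_mul]
  intro htop
  rw [htop, top_le_iff] at hK
  have h1 : (Finsupp.single P.support 1 : MI F B) ∈ K := by rw [hK]; trivial
  have h2 : θ ((Finsupp.single P.support 1 : MI F B) P.support) = 0 := h1
  rw [Finsupp.single_eq_same, map_one] at h2
  exact one_ne_zero h2

theorem idl_lower_MI (F B : Type u) [Field F] :
    (2 : Cardinal.{u}) ^ (#F ^ #B) ≤ #{I : Set (Submodule F (MI F B)) // Maximal IsIdl I} := by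
  have h := idl_lower (L := Submodule F (MI F B)) (ι := B → F) (C := ULift.{u} Bool) WI WI_sup WI_indep
  rw [← power_def, ← power_def, mk_uLift, mk_bool] at h
  simpa using h

end Pool.Agent.X222.SL
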