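import Pool.Agent.X222.SL.Upper
import Pool.Agent.X222.SL.LowFil
import Pool.Agent.X222.SL.LowIdl

/-!
The numbers of the maximal ideals and of the maximal filters of the lattice of the subspaces of an
infinite-dimensional vector space.
-/

namespace Pool.Agent.X222.SL

open Cardinal Finset Module

universe u

theorem rank_MF (F B : Type u) [Field F] (hB : ℵ₀ ≤ #B) : Module.rank F (MF F B) = #B := by
  have : Infinite B := Cardinal.infinite_iff.2 hB
  rw [rank_finsupp_self', mk_prod, lift_id, lift_id, mk_finset_of_infinite,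
    mk_finset_of_infinite, mk_finset_of_infinite, mul_eq_self hB]

theorem rank_MI (F B : Type u) [Field F] (hB : ℵ₀ ≤ #B) : Module.rank F (MI F B) = #B := by
  have : Infinite B := Cardinal.infinite_iff.2 hB
  have e1 : #(B →₀ ℕ) = #B := by
    rw [mk_finsupp_nat, max_eq_left hB]
  have : Infinite (B →₀ ℕ) := Cardinal.infinite_iff.2 (by rw [e1]; exact hB)
  have e2 : #((B →₀ ℕ) →₀ ℕ) = #B := by
    rw [mk_finsupp_nat, e1, max_eq_left hB]
  have e3 : Module.rank F (MvPolynomial (B →₀ ℕ) F) = #B := by
    rw [← (MvPolynomial.basisMonomials (B →₀ ℕ) F).mk_eq_rank'', e2]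
  rw [rank_finsupp', mk_finset_of_infinite, e1, e3, mul_eq_self hB]

theorem idl_congr_rank (F : Type u) [Field F] (V W : Type u) [AddCommGroup V] [Module F V]
    [AddCommGroup W] [Module F W] (h : Module.rank F V = Module.rank F W) :
    #{I : Set (Submodule F V) // Maximal IsIdl I} = #{I : Set (Submodule F W) // Maximal IsIdl I} := by
  obtain ⟨e⟩ := nonempty_linearEquiv_of_rank_eq h
  exact mk_idl_congr (Submodule.orderIsoMapComap e)

theorem fil_congr_rank (F : Type u) [Field F] (V W : Type u) [AddCommGroup V] [Module F V]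
    [AddCommGroup W] [Module F W] (h : Module.rank F V = Module.rank F W) :
    #{I : Set (Submodule F V) // Maximal IsFil I} = #{I : Set (Submodule F W) // Maximal IsFil I} := by
  obtain ⟨e⟩ := nonempty_linearEquiv_of_rank_eq h
  exact mk_fil_congr (Submodule.orderIsoMapComap e)

theorem count (F V : Type u) [Field F] [AddCommGroup V] [Module F V]
    (hV : ℵ₀ ≤ Module.rank F V) :
    #{I : Set (Submodule F V) // Maximal IsIdl I} = 2 ^ (#F ^ Module.rank F V) ∧
      #{J : Set (Submodule F V) // Maximal IsFil J} = #F ^ ((2 : Cardinal.{u}) ^ Module.rank F V) := by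
  let b := Basis.ofVectorSpace F V
  have hb : #(Basis.ofVectorSpaceIndex F V) = Module.rank F V := b.mk_eq_rank''
  rw [← hb] at hV ⊢
  constructor
  · refine le_antisymm (idl_upper b hV) ?_
    rw [idl_congr_rank F V (MI F (Basis.ofVectorSpaceIndex F V)) (by rw [rank_MI _ _ hV, hb])]
    exact idl_lower_MI _ _
  · refine le_antisymm (fil_upper b hV) ?_
    rw [fil_congr_rank F V (MF F (Basis.ofVectorSpaceIndex F V)) (by rw [rank_MF _ _ hV, hb])]
    exact fil_lower_MF _ _

end Pool.Agent.X222.SL
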