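import Pool.Agent.X222.SL.Basic
import Pool.Agent.X222.SL.Kernel

/-!
Upper bounds for the numbers of the maximal ideals and of the maximal filters.
-/

namespace Pool.Agent.X222.SL

open Cardinal Finset Module

universe u

variable {F V : Type u} [Field F] [AddCommGroup V] [Module F V]

theorem mk_V_le {B : Type u} (b : Basis B F V) : #V ≤ #F ^ #B := by
  rw [power_def]
  refine mk_le_of_injective (f := fun v => (fun i => b.repr v i : B → F)) ?_
  intro v w h
  apply b.repr.injective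
  ext i
  exact congrFun h i

theorem exists_span {B : Type u} (b : Basis B F V) (W : Submodule F V) :
    ∃ g : B → V, Submodule.span F (Set.range g) = W := by
  classical
  let c := Basis.ofVectorSpace F W
  have h1 : #(Basis.ofVectorSpaceIndex F W) ≤ #B := by
    rw [c.mk_eq_rank'', b.mk_eq_rank'']
    exact Submodule.rank_le W
  obtain ⟨e⟩ := h1
  refine ⟨fun x => if h : ∃ i, e i = x then (c h.choose : V) else 0, le_antisymm ?_ ?_⟩
  · rw [Submodule.span_le]
    rintro _ ⟨x, rfl⟩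
    dsimp only
    split_ifs with h
    · exact (c h.choose).2
    · exact W.zero_mem
  · have h2 := congrArg (Submodule.map W.subtype) c.span_eq
    rw [Submodule.map_span, Submodule.map_subtype_top] at h2
    refine (le_of_eq h2.symm).trans ?_
    rw [Submodule.span_le]
    rintro _ ⟨w, ⟨i, rfl⟩, rfl⟩
    refine Submodule.subset_span ⟨e i, ?_⟩
    have h : ∃ j, e j = e i := ⟨i, rfl⟩
    dsimp only
    rw [dif_pos h]
    have : h.choose = i := e.injective h.choose_spec
    rw [this]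
    rfl

theorem mk_sub_le {B : Type u} (b : Basis B F V) (hB : ℵ₀ ≤ #B) :
    #(Submodule F V) ≤ #F ^ #B := by
  have h1 : #(Submodule F V) ≤ #(B → V) := by
    refine mk_le_of_surjective (f := fun g : B → V => Submodule.span F (Set.range g)) ?_
    intro W
    exact exists_span b W
  refine h1.trans ?_
  rw [← power_def]
  calc #V ^ #B ≤ (#F ^ #B) ^ #B := power_le_power_right (mk_V_le b)
    _ = #F ^ (#B * #B) := (power_mul).symm
    _ = #F ^ #B := by rw [mul_eq_self hB]

theorem idl_upper {B : Type u} (b : Basis B F V) (hB : ℵ₀ ≤ #B) :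
    #{I : Set (Submodule F V) // Maximal IsIdl I} ≤ 2 ^ (#F ^ #B) := by
  calc _ ≤ #(Set (Submodule F V)) := mk_subtype_le _
    _ = 2 ^ #(Submodule F V) := mk_set
    _ ≤ _ := power_le_power_left two_ne_zero (mk_sub_le b hB)

/-- the tree of the closure process: each node has, for every finite set `A`, finitely many
successors -/
abbrev Wt (K : Type u) : Type u := WType (fun n : K → ℕ => (Σ A : K, Fin (n A)))

theorem mk_Wt_le (K : Type u) (hK : ℵ₀ ≤ #K) : #(Wt K) ≤ 2 ^ #K := by
  apply WType.cardinalMk_le_of_le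
  have h2K : ℵ₀ ≤ 2 ^ #K := hK.trans (cantor _).le
  have hne : Nonempty (K → ℕ) := ⟨fun _ => 0⟩
  have h1 : ∀ n : K → ℕ, #(Σ A : K, Fin (n A)) ≤ #K := by
    intro n
    have e1 : #(Σ A : K, Fin (n A)) ≤ #(K × ULift.{u} ℕ) := by
      refine mk_le_of_injective (f := fun p : (Σ A : K, Fin (n A)) =>
        ((p.1, ⟨p.2.val⟩) : K × ULift.{u} ℕ)) ?_
      rintro ⟨A, i⟩ ⟨A', i'⟩ h
      have h1 : A = A' := congrArg Prod.fst h
      subst h1
      have h2 : i.val = i'.val := congrArg (fun q : K × ULift.{u} ℕ => q.2.down) h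
      rw [Fin.ext h2]
    refine e1.trans ?_
    rw [mk_prod, lift_id, lift_id, mk_uLift, mk_nat, lift_aleph0]
    exact (mul_aleph0_eq hK).le
  calc Cardinal.sum (fun n : K → ℕ => (2 ^ #K : Cardinal.{u}) ^ #(Σ A : K, Fin (n A)))
      ≤ Cardinal.sum (fun _ : K → ℕ => (2 ^ #K : Cardinal.{u})) := by
        apply Cardinal.sum_le_sum
        intro n
        calc (2 ^ #K : Cardinal.{u}) ^ #(Σ A : K, Fin (n A)) ≤ (2 ^ #K) ^ #K :=
              power_le_power_left (power_ne_zero _ two_ne_zero) (h1 n)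
          _ = 2 ^ (#K * #K) := (power_mul).symm
          _ = 2 ^ #K := by rw [mul_eq_self hK]
    _ = #(K → ℕ) * 2 ^ #K := by rw [Cardinal.sum_const']
    _ = (ℵ₀ ^ #K) * 2 ^ #K := by simp
    _ = 2 ^ #K * 2 ^ #K := by
        congr 1
        exact power_eq_two_power hK (natCast_lt_aleph0 (n := 2)).le hK
    _ = 2 ^ #K := mul_eq_self h2K

/-- the trace relation: `U` and `W` meet nontrivially within the span of `b i`, `i ∈ A` -/
def R {B : Type u} (b : Basis B F V) (U W : Submodule F V) (A : Finset B) : Prop :=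
  U ⊓ W ⊓ Submodule.span F (b '' (A : Set B)) ≠ ⊥

theorem meets_iff_R {B : Type u} (b : Basis B F V) (U W : Submodule F V) :
    U ⊓ W ≠ ⊥ ↔ ∃ A, R b U W A := by
  constructor
  · intro h
    obtain ⟨x, hx, h0⟩ := (Submodule.ne_bot_iff _).1 h
    refine ⟨(b.repr x).support, ?_⟩
    unfold R
    rw [Submodule.ne_bot_iff]
    refine ⟨x, ⟨hx, ?_⟩, h0⟩
    exact b.mem_span_image.2 (le_refl _)
  · rintro ⟨A, hA⟩ h
    apply hA
    rw [h, bot_inf_eq]

theorem kernel_R {B : Type u} (b : Basis B F V) (A : Finset B) (G : Set (Submodule F V)) :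
    ∃ s : Finset (Submodule F V), ↑s ⊆ G ∧
      ∀ T : Submodule F V, (∀ U ∈ s, R b U T A) → ∀ U ∈ G, R b U T A := by
  have : FiniteDimensional F (Submodule.span F (b '' (A : Set B))) :=
    FiniteDimensional.span_of_finite F ((A.finite_toSet).image b)
  exact kernel_trace _ G

/-- The closure process: for a maximal filter `J` (any set `J ∋ ⊤` of subspaces and any set of
subspaces outside, each of which misses a member of `J`) there are few members of `J` which witness
everything. -/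
theorem closing {B : Type u} (b : Basis B F V) (J : Set (Submodule F V)) (hJ : ⊤ ∈ J)
    (hW : ∀ W ∉ J, ∃ U ∈ J, U ⊓ W = ⊥) :
    ∃ g : Wt (Finset B) → Submodule F V, (∀ t, g t ∈ J) ∧ ∀ W ∉ J, ∃ t, g t ⊓ W = ⊥ := by
  classical
  let Ψ : (n : Finset B → ℕ) → ((Σ A : Finset B, Fin (n A)) → Submodule F V) → Submodule F V :=
    fun n c => if h : ∃ U ∈ J, ∃ W : Submodule F V, (∀ p : (Σ A : Finset B, Fin (n A)), R b (c p) W p.1) ∧
      U ⊓ W = ⊥ then h.choose else ⊤
  have hΨ : ∀ n c, Ψ n c ∈ J := by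
    intro n c
    by_cases h : ∃ U ∈ J, ∃ W : Submodule F V,
      (∀ p : (Σ A : Finset B, Fin (n A)), R b (c p) W p.1) ∧ U ⊓ W = ⊥
    · have : Ψ n c = h.choose := dif_pos h
      rw [this]
      exact h.choose_spec.1
    · have : Ψ n c = ⊤ := dif_neg h
      rw [this]
      exact hJ
  let g : Wt (Finset B) → Submodule F V := WType.elim (Submodule F V) (fun p => Ψ p.1 p.2)
  have hg : ∀ n c, g (WType.mk n c) = Ψ n (fun p => g (c p)) := fun n c => rfl
  refine ⟨g, ?_, ?_⟩
  · rintro ⟨n, c⟩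
    rw [hg]
    exact hΨ _ _
  · intro W hWJ
    by_contra hcon
    push Not at hcon
    -- every `g t` meets `W` nontrivially, in the trace of some `A`
    have hall : ∀ t, ∃ A, R b (g t) W A := fun t => (meets_iff_R b _ _).1 (hcon t)
    have hker := fun A : Finset B => kernel_R b A {U | (∃ t, g t = U) ∧ R b U W A}
    choose s hs hs' using hker
    let n : Finset B → ℕ := fun A => (s A).card
    have ht : ∀ p : (Σ A : Finset B, Fin (n A)), ∃ t, g t = ((s p.1).equivFin.symm p.2).1 := by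
      intro p
      exact (hs p.1 ((s p.1).equivFin.symm p.2).2).1
    choose t ht using ht
    obtain ⟨U₁, hU₁, hU₁W⟩ := hW W hWJ
    have hex : ∃ U ∈ J, ∃ W' : Submodule F V,
        (∀ p : (Σ A : Finset B, Fin (n A)), R b (g (t p)) W' p.1) ∧ U ⊓ W' = ⊥ := by
      refine ⟨U₁, hU₁, W, ?_, hU₁W⟩
      intro p
      rw [ht p]
      exact (hs p.1 ((s p.1).equivFin.symm p.2).2).2
    have hΨ0 : g (WType.mk n t) = hex.choose := by
      rw [hg]
      exact dif_pos hex
    obtain ⟨W₀, hW₀, hW₀'⟩ := hex.choose_spec.2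
    rw [← hΨ0] at hW₀'
    obtain ⟨A, hA⟩ := hall (WType.mk n t)
    have hmem : g (WType.mk n t) ∈ {U | (∃ t, g t = U) ∧ R b U W A} := ⟨⟨_, rfl⟩, hA⟩
    have hfin := hs' A W₀ (by
      intro U hU
      have h1 := hW₀ ⟨A, (s A).equivFin ⟨U, hU⟩⟩
      rw [ht] at h1
      simpa using h1) _ hmem
    have := (meets_iff_R b (g (WType.mk n t)) W₀).2 ⟨A, hfin⟩
    exact this hW₀'

/-- a subspace outside a maximal filter misses a member of the filter -/
theorem max_fil {L : Type u} [Lattice L] [BoundedOrder L] (J : Set L) (hJ : Maximal IsFil J)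
    (W : L) (hW : W ∉ J) : ∃ U ∈ J, U ⊓ W = ⊥ := by
  by_contra hcon
  push Not at hcon
  have h1 : IsFil {X : L | ∃ U ∈ J, U ⊓ W ≤ X} := by
    refine ⟨⟨⊤, hJ.1.1, le_top⟩, ?_, ?_, ?_⟩
    · rintro ⟨U, hU, h⟩
      exact hcon U hU (le_bot_iff.1 h)
    · rintro X ⟨U, hU, h⟩ Y hY
      exact ⟨U, hU, h.trans hY⟩
    · rintro X ⟨U, hU, h⟩ Y ⟨U', hU', h'⟩
      refine ⟨U ⊓ U', hJ.1.2.2.2 U hU U' hU', le_inf ?_ ?_⟩
      · exact (inf_le_inf_right _ inf_le_left).trans h
      · exact (inf_le_inf_right _ inf_le_right).trans h'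
  have h2 : J ⊆ {X : L | ∃ U ∈ J, U ⊓ W ≤ X} := fun U hU => ⟨U, hU, inf_le_left⟩
  have h3 := hJ.2 h1 h2
  exact hW (h3 ⟨⊤, hJ.1.1, inf_le_right⟩)

theorem fil_upper {B : Type u} (b : Basis B F V) (hB : ℵ₀ ≤ #B) :
    #{J : Set (Submodule F V) // Maximal IsFil J} ≤ #F ^ ((2 : Cardinal.{u}) ^ #B) := by
  classical
  have hinf : Infinite B := infinite_iff.2 hB
  have key : ∀ J : {J : Set (Submodule F V) // Maximal IsFil J},
      ∃ g : Wt (Finset B) → Submodule F V, ∀ W, W ∈ J.1 ↔ ∀ t, g t ⊓ W ≠ ⊥ := by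
    intro J
    obtain ⟨g, hg, hg'⟩ := closing b J.1 J.2.1.1 (fun W hW => max_fil J.1 J.2 W hW)
    refine ⟨g, fun W => ⟨fun hW t h => ?_, fun h => ?_⟩⟩
    · have := J.2.1.2.2.2 _ (hg t) _ hW
      rw [h] at this
      exact J.2.1.2.1 this
    · by_contra hW
      obtain ⟨t, ht⟩ := hg' W hW
      exact h t ht
  choose g hg using key
  have hinj : Function.Injective g := by
    intro J J' h
    apply Subtype.ext
    ext W
    rw [hg, hg, h]
  have hK : ℵ₀ ≤ #(Finset B) := by rw [mk_finset_of_infinite]; exact hB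
  have h2B : ℵ₀ ≤ (2 : Cardinal.{u}) ^ #B := hB.trans (cantor _).le
  calc #{J : Set (Submodule F V) // Maximal IsFil J} ≤ #(Wt (Finset B) → Submodule F V) :=
        mk_le_of_injective hinj
    _ = #(Submodule F V) ^ #(Wt (Finset B)) := by rw [power_def]
    _ ≤ (#F ^ #B) ^ #(Wt (Finset B)) := power_le_power_right (mk_sub_le b hB)
    _ ≤ (#F ^ #B) ^ ((2 : Cardinal.{u}) ^ #B) := by
        apply power_le_power_left
        · exact power_ne_zero _ (mk_ne_zero F)
        · have := mk_Wt_le (Finset B) hK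
          rwa [mk_finset_of_infinite] at this
    _ = #F ^ (#B * (2 : Cardinal.{u}) ^ #B) := (power_mul).symm
    _ = #F ^ ((2 : Cardinal.{u}) ^ #B) := by
        rw [mul_eq_right h2B (cantor _).le (by
          intro h
          rw [h] at hB
          exact absurd hB (not_le.2 aleph0_pos))]

end Pool.Agent.X222.SL
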